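import Pool.Agent.R957.Mir.Final

/-!
# Mirrored pairs of optimal entanglement witnesses in every dimension `d ≥ 4`

The definitions (`IsState`, `Separable`, `IsEW`, `IsOptimalEW`, `IsMirrored`) are in
`Pool.Agent.R957.Mir.Defs`.  `Hd d` is the real symmetric `d × d` matrix with entries `±1` between
`{0, 1}` and `{2, ..., d - 1}` (all `+1` except the entries at `1, 3` and `3, 1`, which are `-1`)
and `0` otherwise; `BB H = ∑ H_ij |ii⟩⟨jj|`.
-/

open Matrix Pool.Agent.R957.Mir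

namespace Pool.Agent.Results.MP_709dca_mp.MirroredPairs

/-- For every `d ≥ 4` there is a mirrored pair of optimal entanglement witnesses on
`ℂ^d ⊗ ℂ^d`, namely `½ - B` and `½ + B` with `B = ∑ H_ij |ii⟩⟨jj|`, `H = Hd d`. -/
theorem result (d : ℕ) (hd : 4 ≤ d) :
    (∃ W M : Matrix (Fin d × Fin d) (Fin d × Fin d) ℂ,
      IsOptimalEW W ∧ IsOptimalEW M ∧ IsMirrored W M) ∧
    IsOptimalEW ((1 / 2 : ℂ) • 1 - BB (Hd d)) ∧ IsOptimalEW ((1 / 2 : ℂ) • 1 + BB (Hd d)) ∧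
      IsMirrored ((1 / 2 : ℂ) • 1 - BB (Hd d)) ((1 / 2 : ℂ) • 1 + BB (Hd d)) := by
  have h := mirrored_pair (good_Hd hd (Or.inl rfl)) (good_Hd hd (Or.inr rfl))
  exact ⟨⟨_, _, h⟩, h⟩

end Pool.Agent.Results.MP_709dca_mp.MirroredPairs
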